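import Pool.Agent.Helper41.LD4.Defs
import Pool.Agent.Helper34.LD.WA

/-!
# Project LD4, block A1: the martingale of one functional
-/

set_option autoImplicit false

namespace Pool.Agent.Helper44.LD4

open Set MeasureTheory Filter Topology
open Pool.Agent.Helper41.LD (av var)
open Pool.Agent.Helper41.LD4
open Pool.Agent.Helper34.LD (ii_of_bdd inv_lt_one' geo_sum av_abs_le)

variable {G : ℕ → ℝ → ℝ} {β w : ℝ} {n : ℕ} {a ℓ : ℝ}

theorem A_le_one (hw : Wd G β w n a ℓ) (j : ℕ) : |A G j a ℓ| ≤ 1 := av_abs_le (hw.bdd j) a hw.pos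

theorem A_le (hw : Wd G β w n a ℓ) {j : ℕ} (hj : n ≤ j) : |A G j a ℓ| ≤ w * β⁻¹ ^ (j - n) := by
  unfold A av
  rw [abs_div, abs_of_pos hw.pos, div_le_iff₀ hw.pos]
  exact hw.tail j hj

theorem summable_A (hw : Wd G β w n a ℓ) : Summable fun j => A G j a ℓ := by
  obtain ⟨h0, h1⟩ := inv_lt_one' hw.hβ
  rw [← summable_nat_add_iff n]
  refine Summable.of_norm_bounded (g := fun j => w * β⁻¹ ^ j) ((summable_geometric_of_lt_one h0.le h1).mul_left _) fun j => ?_
  have h2 := A_le hw (j := j + n) (by omega)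
  rw [Nat.add_sub_cancel] at h2
  rw [Real.norm_eq_abs]
  exact h2

theorem M_tail (hw : Wd G β w n a ℓ) {m' : ℕ} (hm : n ≤ m') :
    |M G a ℓ - ∑ j ∈ Finset.range m', A G j a ℓ| ≤ w * β⁻¹ ^ (m' - n) * (β / (β - 1)) := by
  obtain ⟨h0, h1⟩ := inv_lt_one' hw.hβ
  have hs := summable_A hw
  have h2 : M G a ℓ - ∑ j ∈ Finset.range m', A G j a ℓ = ∑' j, A G (j + m') a ℓ := by
    unfold M
    rw [← hs.sum_add_tsum_nat_add m']
    ring
  rw [h2, ← geo_sum hw.hβ, ← Real.norm_eq_abs]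
  have h3 : HasSum (fun j : ℕ => w * β⁻¹ ^ (m' - n) * β⁻¹ ^ j) (w * β⁻¹ ^ (m' - n) * (1 - β⁻¹)⁻¹) :=
    (hasSum_geometric_of_lt_one h0.le h1).mul_left _
  refine tsum_of_norm_bounded h3 fun j => ?_
  rw [Real.norm_eq_abs]
  refine (A_le hw (j := j + m') (by omega)).trans (le_of_eq ?_)
  rw [mul_assoc, ← pow_add]
  congr 2
  omega

theorem M_le (hw : Wd G β w n a ℓ) : |M G a ℓ| ≤ n + w * (β / (β - 1)) := by
  have h1 := M_tail hw (le_refl n)
  rw [Nat.sub_self, pow_zero, mul_one] at h1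
  have h2 : |∑ j ∈ Finset.range n, A G j a ℓ| ≤ n := by
    refine (Finset.abs_sum_le_sum_abs _ _).trans ((Finset.sum_le_sum fun j _ => A_le_one hw j).trans (le_of_eq ?_))
    simp
  have h4 : M G a ℓ = (M G a ℓ - ∑ j ∈ Finset.range n, A G j a ℓ) + ∑ j ∈ Finset.range n, A G j a ℓ := by ring
  rw [h4]
  refine (abs_add_le _ _).trans ?_
  linarith

theorem A_children (hw : Wd G β w n a ℓ) (j : ℕ) {B : ℕ} (hB : 1 ≤ B) :
    ∑ b ∈ Finset.range B, A G j (a + b * (ℓ / B)) (ℓ / B) = B * A G j a ℓ := by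
  have hB0 : (0 : ℝ) < B := by exact_mod_cast hB
  have hℓ := hw.pos
  unfold A av
  rw [← Finset.sum_div]
  have h1 := intervalIntegral.sum_integral_adjacent_intervals (μ := volume) (f := G j) (a := fun b : ℕ => a + b * (ℓ / B)) (n := B)
    fun b _ => ii_of_bdd (hw.meas j) (hw.bdd j) _ _
  have h2 : ∑ b ∈ Finset.range B, ∫ x in (a + b * (ℓ / B))..(a + b * (ℓ / B) + ℓ / B), G j x = ∫ x in a..(a + ℓ), G j x := by
    have h3 : ∀ b : ℕ, a + (b : ℝ) * (ℓ / B) + ℓ / B = a + ((b + 1 : ℕ) : ℝ) * (ℓ / B) := by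
      intro b
      push_cast
      ring
    simp_rw [h3]
    rw [h1]
    congr 1
    · simp
    · field_simp
  rw [h2]
  field_simp

theorem M_children (hw : Wd G β w n a ℓ) {n' B : ℕ} (hB : 1 ≤ B) (hw' : ∀ b < B, Wd G β w n' (a + b * (ℓ / B)) (ℓ / B)) :
    ∑ b ∈ Finset.range B, M G (a + b * (ℓ / B)) (ℓ / B) = B * M G a ℓ := by
  unfold M
  rw [← Summable.tsum_finsetSum fun b hb => summable_A (hw' b (Finset.mem_range.1 hb)), ← tsum_mul_left]
  exact tsum_congr fun j => A_children hw j hB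

theorem A_const {r : ℕ} (h : NB G n r a ℓ) {j : ℕ} (hj : j + r < n) {a' ℓ' : ℝ} (ha : a ≤ a') (hℓ' : 0 < ℓ')
    (he : a' + ℓ' ≤ a + ℓ) : A G j a' ℓ' = G j a := by
  unfold A av
  have h1 : ∫ x in a'..(a' + ℓ'), G j x = ∫ _x in a'..(a' + ℓ'), G j a := by
    refine intervalIntegral.integral_congr fun x hx => ?_
    rw [uIcc_of_le (by linarith)] at hx
    exact h j hj x ⟨ha.trans hx.1, hx.2.trans he⟩
  rw [h1, intervalIntegral.integral_const, add_sub_cancel_left, smul_eq_mul]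
  field_simp

theorem sum_sub_M (hw : Wd G β w n a ℓ) {r : ℕ} (h : NB G n r a ℓ) {x : ℝ} (hx : x ∈ Icc a (a + ℓ)) :
    |∑ j ∈ Finset.range n, G j x - M G a ℓ| ≤ 2 * r + w * (β / (β - 1)) := by
  have hℓ := hw.pos
  have h1 := M_tail hw (le_refl n)
  rw [Nat.sub_self, pow_zero, mul_one] at h1
  have h4 : |∑ j ∈ Finset.range n, (G j x - A G j a ℓ)| ≤ 2 * r := by
    refine (Finset.abs_sum_le_sum_abs _ _).trans ?_
    have h5 : ∀ j ∈ Finset.range n, |G j x - A G j a ℓ| ≤ if n ≤ j + r then 2 else 0 := by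
      intro j _
      by_cases hj : n ≤ j + r
      · rw [if_pos hj]
        refine (abs_sub _ _).trans ?_
        have h6 := hw.bdd j x
        have h7 := A_le_one hw j
        linarith
      · rw [if_neg hj, h j (by omega) x hx, A_const h (by omega) le_rfl hℓ le_rfl, sub_self, abs_zero]
    refine (Finset.sum_le_sum h5).trans ?_
    rw [← Finset.sum_filter, Finset.sum_const, nsmul_eq_mul]
    have h6 : ((Finset.range n).filter fun j => n ≤ j + r).card ≤ r := by
      have h7 : (Finset.range n).filter (fun j => n ≤ j + r) ⊆ Finset.Ico (n - r) n := by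
        intro j hj
        rw [Finset.mem_filter, Finset.mem_range] at hj
        rw [Finset.mem_Ico]
        omega
      refine (Finset.card_le_card h7).trans ?_
      rw [Nat.card_Ico]
      omega
    have h8 : (((Finset.range n).filter fun j => n ≤ j + r).card : ℝ) ≤ r := by exact_mod_cast h6
    linarith
  have h5 : ∑ j ∈ Finset.range n, G j x - M G a ℓ =
      ∑ j ∈ Finset.range n, (G j x - A G j a ℓ) - (M G a ℓ - ∑ j ∈ Finset.range n, A G j a ℓ) := by
    rw [Finset.sum_sub_distrib]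
    ring
  rw [h5]
  refine (abs_sub _ _).trans ?_
  linarith

end Pool.Agent.Helper44.LD4
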